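import Pool.Agent.Lib.MP_1dedaf_gt.Fin

/-!
# The logarithmic Brunn-Minkowski inequality in the plane for `K` and `-r K`
-/

set_option autoImplicit false

open MeasureTheory
open scoped Pointwise

namespace Pool.Agent.Results.MP_1dedaf_gt.ReflectedPairs

open Pool.Agent.Lib.MP_1dedaf_gt

/-- The support function `h_K(u) = max {<y, u> : y ∈ K}`. -/
noncomputable def suppFn (K : Set (EuclideanSpace ℝ (Fin 2))) (u : EuclideanSpace ℝ (Fin 2)) : ℝ :=
  sSup ((fun y => inner ℝ y u) '' K)

/-- The logarithmic combination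
`(1 - t) K +₀ t C = {x : <x, u> ≤ h_K(u)^(1-t) h_C(u)^t for all unit vectors u}`. -/
def logComb (t : ℝ) (K C : Set (EuclideanSpace ℝ (Fin 2))) : Set (EuclideanSpace ℝ (Fin 2)) :=
  {x | ∀ u : EuclideanSpace ℝ (Fin 2), ‖u‖ = 1 →
    inner ℝ x u ≤ (suppFn K u) ^ (1 - t) * (suppFn C u) ^ t}

/-- The area. -/
noncomputable def area (K : Set (EuclideanSpace ℝ (Fin 2))) : ℝ := (volume K).toReal

/-- The equality cases of the question: `K = K_1 + ... + K_m`, `C = C_1 + ... + C_m` with nonempty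
compact convex sets `K_i` of dimension at least one, whose dimensions have the sum `2`, and
dilates `C_i` of `K_i`. -/
def Decomposes (K C : Set (EuclideanSpace ℝ (Fin 2))) : Prop :=
  ∃ m : ℕ, ∃ Ks Cs : Fin m → Set (EuclideanSpace ℝ (Fin 2)),
    (∀ i, Convex ℝ (Ks i) ∧ IsCompact (Ks i) ∧ (Ks i).Nonempty ∧
      1 ≤ Module.finrank ℝ (affineSpan ℝ (Ks i)).direction) ∧
    (∑ i, Module.finrank ℝ (affineSpan ℝ (Ks i)).direction) = 2 ∧
    K = ∑ i, Ks i ∧ C = ∑ i, Cs i ∧
    (∀ i, ∃ r : ℝ, 0 < r ∧ Cs i = r • Ks i)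

/-- **Q1 for `n = 2` and all pairs `K`, `C = -r K`** (`K` centered, `r > 0`): for every `t` in
`(0, 1)` the logarithmic Brunn-Minkowski inequality holds; there is equality if and only if
`K = -K`, and if and only if there is a decomposition as in the question. -/
theorem result :
    ∀ t : ℝ, 0 < t → t < 1 →
    ∀ K C : Set (EuclideanSpace ℝ (Fin 2)),
      Convex ℝ K → IsCompact K → (interior K).Nonempty →
      (∫ x in K, x ∂volume) = 0 →
      ∀ r : ℝ, 0 < r → C = (-r) • K →
      (area K ^ (1 - t) * area C ^ t ≤ area (logComb t K C)) ∧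
      (area (logComb t K C) = area K ^ (1 - t) * area C ^ t ↔ (-1 : ℝ) • K = K) ∧
      (area (logComb t K C) = area K ^ (1 - t) * area C ^ t ↔ Decomposes K C) := by
  intro t ht0 ht1 K C hc hK hint h0 r hr hC
  have hVpos : 0 < volume.real K := ENNReal.toReal_pos
    ((isOpen_interior.measure_pos volume hint).trans_le (measure_mono interior_subset)).ne'
    hK.measure_lt_top.ne
  have hR : area K ^ (1 - t) * area C ^ t = (r ^ t) ^ 2 * volume.real K := by
    have h1 : (volume C).toReal = r ^ 2 * volume.real K := by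
      have := vol_smul (-r) K
      rw [← hC, neg_sq] at this
      exact this
    unfold area
    rw [h1]
    exact rhs_eq hVpos hr
  have hiff : (∀ x ∈ K, -x ∈ K) ↔ (-1 : ℝ) • K = K := by
    constructor
    · intro hs
      ext x
      constructor
      · rintro ⟨y, hy, rfl⟩
        simpa using hs y hy
      · intro hx
        exact ⟨-x, hs x hx, by simp⟩
    · intro h x hx
      rw [← h] at hx
      obtain ⟨y, hy, hxy⟩ := hx
      rw [← hxy]
      simpa using hy
  have hLW : logComb t K C = LW t K ((-r) • K) := by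
    rw [hC]
    rfl
  rw [hLW, hR]
  by_cases hs : ∀ x ∈ K, -x ∈ K
  · have heq : area (LW t K ((-r) • K)) = (r ^ t) ^ 2 * volume.real K := by
      rw [LW_sym hK hc hint h0 hr hs]
      exact vol_smul _ _
    exact ⟨heq.ge, ⟨fun _ => hiff.1 hs, fun _ => heq⟩,
      ⟨fun _ => sym_dec hK hc hint hr hC hs, fun _ => heq⟩⟩
  · have hlt : (r ^ t) ^ 2 * volume.real K < area (LW t K ((-r) • K)) :=
      LW_lt hK hc hint h0 ht0 ht1 hr hs
    refine ⟨hlt.le, ⟨fun h => absurd h hlt.ne', fun h => absurd (hiff.2 h) hs⟩,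
      ⟨fun h => absurd h hlt.ne', ?_⟩⟩
    rintro ⟨m, Ks, Cs, h1, h2, h3, h4, h5⟩
    exact absurd (dec_sym hK hint h0 hr hC h1 h2 h3 h4 h5) hs

end Pool.Agent.Results.MP_1dedaf_gt.ReflectedPairs
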